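import Mathlib
import Pool.Agent.H21.VNumDef2
import Pool.Agent.H21.VNumEx

namespace Pool.Agent.Results.MP_0bcfe8_al.Drop

open MvPolynomial Pool.Agent.H21.VNum Pool.Agent.H21.VNumEx

attribute [local instance] MvPolynomial.gradedAlgebra

theorem eq_loc (K : Type) [Field K] (k : ℕ) (hk : 1 ≤ k) :
    vNum (I K ^ k) = vLoc (idealOfVars (Fin 3) K) (I K ^ k) := by
  unfold vNum vLoc
  congr 1
  ext d
  refine exists_congr fun f => and_congr_right fun _ => ⟨fun h => ?_, fun h => h ▸ ass K k hk⟩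
  refine ((maxl K).eq_of_le h.1.ne_top (Ideal.span_le.2 ?_)).symm
  rintro _ ⟨i, rfl⟩
  have : (X i ^ 5 : MvPolynomial (Fin 3) K) ∈ I K := Ideal.subset_span (by fin_cases i <;> simp)
  refine h.1.mem_of_pow_mem (5 * k) ?_
  rw [Submodule.mem_colon_singleton, pow_mul]
  exact Ideal.mul_mem_right _ _ (Ideal.pow_mem_pow this k)

theorem result (K : Type) [Field K] :
    ∃ I : Ideal (MvPolynomial (Fin 3) K), I.IsHomogeneous (homogeneousSubmodule (Fin 3) K) ∧
      I ≠ ⊥ ∧ I ≠ ⊤ ∧ vNum (I ^ 2) < vNum (I ^ 1) := by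
  refine ⟨I K, (main K).1, fun h => ?_, fun h => ?_, ?_⟩
  · have : (X 0 ^ 5 : MvPolynomial (Fin 3) K) ∈ I K := Ideal.subset_span (by simp)
    rw [h, Ideal.mem_bot] at this
    exact pow_ne_zero 5 (X_ne_zero 0) this
  · exact (maxl K).ne_top (top_le_iff.1 (h ▸ (I_le K).trans (Ideal.pow_le_self two_ne_zero)))
  · rw [eq_loc K 2 (by omega), eq_loc K 1 le_rfl]
    exact (main K).2

end Pool.Agent.Results.MP_0bcfe8_al.Drop
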